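import Pool.Agent.Q289.OP.Defs

/-!
# Product measures conditioned on a partial order: statements of the discrete part
-/

set_option autoImplicit false

namespace Q289.OP

open MeasureTheory Set Filter Topology

/-- Counting. Let `n = |ι|` and `Y` the set of the `y` counted by `cnt c M`. The cubes
`Q_y = {x | y_i / M ≤ x_i < (y_i + 1) / M}` are disjoint with volume `M ^ (-n)`. If `u ∈ VS c` then
`y_i = ⌊M (c_i + u_i)⌋` is in `Y` and `c + u ∈ Q_y`, so `vv c ≤ cnt c M * M ^ (-n)`. If `y ∈ Y` is injective then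
`y_i + 1 ≤ y_j` for `i < j`, so that all `x ∈ Q_y` are order preserving and `Q_y - c ⊆ VS c`. The number of `y ∈ Y`
with `y_i = y_j` for some `i ≠ j` is at most `n ^ 2 * M ^ (n - 1)`. -/
def S_CNT : Prop :=
  ∀ (ι : Type) [Fintype ι] [DecidableEq ι] [PartialOrder ι] (c : ι → ℕ) (M : ℕ), 0 < M →
    vv c * (M : ℝ) ^ Fintype.card ι ≤ cnt c M ∧
      (cnt c M : ℝ) * M ≤ vv c * (M : ℝ) ^ (Fintype.card ι + 1) +
        (Fintype.card ι : ℝ) ^ 2 * (M : ℝ) ^ Fintype.card ι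

/-- The volumes satisfy the lattice condition. Let `s`, `t` be the finite sets counted by `cnt c M`, `cnt d M`
(in the distributive lattice `ι → ℕ`). The elements of `s ⊼ t` and `s ⊻ t` are counted by `cnt (c ⊓ d) M` and
`cnt (c ⊔ d) M` (infimum and supremum of order preserving maps are order preserving; `M (c_i ⊓ d_i) ≤ y_i ⊓ z_i`
etc.), so `cnt c M * cnt d M ≤ cnt (c ⊓ d) M * cnt (c ⊔ d) M` by `Finset.le_card_infs_mul_card_sups`. By `S_CNT`,
`cnt c M / M ^ n → vv c` as `M → ∞`. -/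
def S_FKG : Prop :=
  ∀ (ι : Type) [Fintype ι] [DecidableEq ι] [PartialOrder ι] (c d : ι → ℕ),
    vv c * vv d ≤ vv (c ⊓ d) * vv (c ⊔ d)

/-- `VS c` is a subset of the unit cube. If `c` is not order preserving then `c_i ≥ c_j + 1` for some `i ≤ j` and
`VS c` is empty. If `c` is order preserving, let `r_i` be the number of the `j < i`; `i < j` implies `r_i < r_j ≤ n - 1`.
The open set of all `u` with `|u_i - (r_i + 1) / (n + 2)| < 1 / (4 (n + 2))` is contained in `VS c`. -/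
def S_VPOS : Prop :=
  ∀ (ι : Type) [Fintype ι] [DecidableEq ι] [PartialOrder ι] (c : ι → ℕ),
    0 ≤ vv c ∧ vv c ≤ 1 ∧ (0 < vv c ↔ Monotone c)

/-- From `S_FKG` and `S_VPOS`: `q (min b b') * q (max b b') = q b * q b'`. -/
def S_ISW : Prop :=
  ∀ (ι : Type) [Fintype ι] [DecidableEq ι] [PartialOrder ι] (N : ℕ) (q : Fin (N + 1) → ℝ),
    (∀ b, 0 < q b) → IsW (ι := ι) (ww q)

/-- Conditional expectations given blocks preserve monotonicity. Let `c ≤ d` be order preserving, `A` the set of the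
`c'` with `blk a c c'` and `B` the set of the `d'` with `blk a d d'`. Adding a constant to `F` we may assume `F ≥ 0`
(`cE w a (F + k) c = cE w a F c + k` since the block sum of `w` is positive when `c` is order preserving).
`c' ∈ A`, `d' ∈ B` imply `c' ⊓ d' ∈ A` and `c' ⊔ d' ∈ B` (look at each `i`: if `c_i < a` then `c'_i = c_i` and
`d'_i ≥ c_i`; if `c_i` is `a` or `a + 1` then `c'_i` is `a` or `a + 1` and `d'_i` is `a`, `a + 1` or is equal to
`d_i > a + 1`; if `c_i > a + 1` then `c'_i = c_i ≤ d_i = d'_i`). By the four functions theorem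
(`four_functions_theorem`) with `f₁ = w F 1_A`, `f₂ = w 1_B`, `f₃ = w 1_A`, `f₄ = w F 1_B`:
`(∑_A w F) (∑_B w) ≤ (∑_A w) (∑_B w F)`. The hypothesis `w c' F c' w d' ≤ w (c' ⊓ d') w (c' ⊔ d') F (c' ⊔ d')` follows
from `IsW.lat` and, if `w c', w d' > 0` (so that `c'`, `d'`, `c' ⊔ d'` are order preserving), `F c' ≤ F (c' ⊔ d')`. -/
def S_MONO : Prop :=
  ∀ (ι : Type) [Fintype ι] [DecidableEq ι] [PartialOrder ι] (N : ℕ)
    (w : (ι → Fin (N + 1)) → ℝ), IsW w → ∀ (a : Fin N) (F : (ι → Fin (N + 1)) → ℝ),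
    MonO F → MonO (cE w a F)

/-- Positive association (FKG inequality), from the four functions theorem as in Mathlib (`fkg`). Adding constants
we may assume `F, G ≥ 0`; `f₁ = w F`, `f₂ = w G`, `f₃ = w`, `f₄ = w F G`, where all functions of the lattice may be
multiplied by the indicator function of `w > 0`. -/
def S_ASSO : Prop :=
  ∀ (ι : Type) [Fintype ι] [DecidableEq ι] [PartialOrder ι] (N : ℕ)
    (w : (ι → Fin (N + 1)) → ℝ), IsW w → ∀ F G : (ι → Fin (N + 1)) → ℝ,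
    MonO F → MonO G → (∑ c, w c * F c) * (∑ c, w c * G c) ≤ (∑ c, w c) * ∑ c, w c * (F c * G c)

/-- `cE w a` is a symmetric projection in the space with weights `w`: `blk a` is an equivalence relation, `cE w a F`
is constant on its classes, and `∑ w (cE F) G = ∑_classes (∑ w F) (∑ w G) / ∑ w = ∑ w (cE F) (cE G)`. If the sum of
`w` over a class is `0` then all weights of the class are `0`. -/
def S_PRO : Prop :=
  ∀ (ι : Type) [Fintype ι] [DecidableEq ι] [PartialOrder ι] (N : ℕ)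
    (w : (ι → Fin (N + 1)) → ℝ), (∀ c, 0 ≤ w c) → ∀ (a : Fin N) (F G : (ι → Fin (N + 1)) → ℝ),
    ∑ c, w c * (cE w a F c * G c) = ∑ c, w c * (F c * cE w a G c) ∧
      ∑ c, w c * (cE w a F c * cE w a G c) = ∑ c, w c * (F c * cE w a G c) ∧
      ∑ c, w c * cE w a F c = ∑ c, w c * F c

/-- Volumes for general disjoint ordered cells `[s_b, s_b + ℓ_b)`: the change of variables
`x_i = s_{c_i} + ℓ_{c_i} u_i` maps `VS c` onto the set on the left. (For `i < j`: if `c_i = c_j` then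
`x_i ≤ x_j ↔ u_i ≤ u_j`; if `c_i < c_j` then `x_i < x_j`; if `c_i > c_j` then `x_i > x_j`.) -/
def S_LEN : Prop :=
  ∀ (ι : Type) [Fintype ι] [DecidableEq ι] [PartialOrder ι] (s l : ℕ → ℝ),
    (∀ b, 0 < l b) → (∀ b b' : ℕ, b < b' → s b + l b ≤ s b') → ∀ c : ι → ℕ,
    (volume {x : ι → ℝ | (∀ i, x i ∈ Ico (s (c i)) (s (c i) + l (c i))) ∧ Monotone x}).toReal =
      (∏ i, l (c i)) * vv c

/-- Splitting a cell of length `α + β` in two cells of lengths `α` and `β`. Use `S_LEN` for the cells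
`[b, b + 1)` (`b < a`), `[a, a + α)`, `[a + α, a + α + β)`, `[b + α + β, b + 1 + α + β)` (`b ≥ a + 2`, up to a shift),
and for the cells where the two cells `a` and `a + 1` are merged. The set of the order preserving `x` with
`x_i` in the cell `c_i` if `c_i ≠ a, a + 1` and in the merged cell otherwise is the disjoint union over `d` of the
sets with `x_i` in the cell `d_i`. So `κ` is `vv` of the map which arises from `c` by merging (`b ↦ b` for `b ≤ a` and
`b ↦ b - 1` for `b > a`). Here `m` is the number of the labels in the cells `a` and `a + 1`. -/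
def S_SCA : Prop :=
  ∀ (ι : Type) [Fintype ι] [DecidableEq ι] [PartialOrder ι] (N : ℕ) (a : Fin N)
    (c : ι → Fin (N + 1)), ∃ κ : ℝ, ∀ α β : ℝ, 0 < α → 0 < β →
    (∑ d : ι → Fin (N + 1), open Classical in if blk a c d then
      (∏ i, if c i = a.castSucc ∨ c i = a.succ then (if d i = a.castSucc then α else β) else 1) *
        vv (fun i => (d i : ℕ)) else 0) =
      κ * (α + β) ^ (Finset.univ.filter fun i => c i = a.castSucc ∨ c i = a.succ).card

/-- The averages over two neighbouring cells act on sums `∑ g(c_i)` as for independent particles. Let `α = q a`,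
`β = q (a + 1)`, `S` the set of the labels `i` with `c_i` equal to `a` or `a + 1`, `m = |S|`, and
`Z(α, β) = κ (α + β) ^ m` the sum in `S_SCA`. The weights `ww q d` of the class of `c` are
`∏_{i ∉ S} q(c_i)` times the terms of the sum `Z(q a, q (a + 1))`, and `κ > 0` because `vv c > 0`. Deriving in `α`: the
mean of the number of `i ∈ S` with `d_i = a` is `α ∂_α Z / Z = m α / (α + β)`. So the mean of `∑ g(d_i)` is
`∑_{i ∉ S} g(c_i) + m (α g(a) + β g(a + 1)) / (α + β)`. -/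
def S_CLO : Prop :=
  ∀ (ι : Type) [Fintype ι] [DecidableEq ι] [PartialOrder ι] (N : ℕ) (q : Fin (N + 1) → ℝ),
    (∀ b, 0 < q b) → ∀ (a : Fin N) (g : Fin (N + 1) → ℝ) (c : ι → Fin (N + 1)), Monotone c →
    cE (ww q) a (fun d => ∑ i, g (d i)) c = ∑ i, t1 q a g (c i)

/-- If `s 0 = 0` then `s 1 = 0`. Otherwise `s (m + 1) / s m` is nondecreasing as long as `s m > 0`, so that
`s m ≥ r ^ m * s 0` with `r = s 1 / s 0`, and `r ^ (2 m) * s 0 ≤ C γ ^ (2 m)` for all `m` gives `r ≤ γ`. -/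
def S_LC : Prop :=
  ∀ (s : ℕ → ℝ) (C γ : ℝ), (∀ m, 0 ≤ s m) → (∀ m, s (m + 1) ^ 2 ≤ s m * s (m + 2)) → 0 ≤ γ →
    (∀ m, s (2 * m) ≤ C * γ ^ (2 * m)) → s 1 ≤ γ * s 0

/-- One particle. Let `⟨g, h⟩ = ∑ q g h`. Each `t1 q a` is a symmetric projection which preserves the constants and the
means, and `∑ q (g - t1 q a g) ^ 2 = q a * q (a + 1) / (q a + q (a + 1)) * (g (a + 1) - g a) ^ 2`. So, for `g` of mean
`0`, `⟨g, tt g⟩ = ⟨g, g⟩ - D1 q g / N ≤ γ ⟨g, g⟩` where `γ = 1 - 1 / (K N)`, and `⟨g, tt g⟩ ≥ 0`. By the inequality of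
Cauchy and Schwarz for the semidefinite form `⟨·, tt ·⟩`: `⟨tt g, tt g⟩ ^ 2 ≤ ⟨g, tt g⟩ ⟨tt g, tt (tt g)⟩ ≤
γ ⟨g, g⟩ γ ⟨tt g, tt g⟩`, whence `⟨tt g, tt g⟩ ≤ γ ^ 2 ⟨g, g⟩`. `0 ≤ γ`: `0 ≤ ⟨g, tt g⟩ ≤ γ ⟨g, g⟩` for some `g` of mean
`0` with `⟨g, g⟩ > 0`, which exists as there are at least two cells. -/
def S_1OP : Prop :=
  ∀ (N : ℕ) (q : Fin (N + 1) → ℝ) (K : ℝ), 1 ≤ N → (∀ b, 0 < q b) → 0 < K → P1 q K →
    0 ≤ 1 - 1 / (K * N) ∧ ∀ (m : ℕ) (g : Fin (N + 1) → ℝ),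
      ∑ b, q b * (((tt q)^[m] g) b - m1 q g) ^ 2 ≤
        (1 - 1 / (K * N)) ^ (2 * m) * ∑ b, q b * (g b - m1 q g) ^ 2

/-- Comparison by positive association. Let `T = TT w`; it is linear, symmetric and positive semidefinite for
`⟨F, G⟩ = ∑ w F G`, preserves the means (`S_PRO`), and `MonO` (`S_MONO`). Let `F` be given, `L ≥ |F c - F d|` for all
`c, d`. Then `L G₀ ± F` are `MonO`. Hence so are `T^[m] (L G₀ ± F) = L T^[m] G₀ ± T^[m] F`, and by `S_ASSO` their covariance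
is nonnegative: `vr w (T^[m] F) ≤ L ^ 2 * vr w (T^[m] G₀) ≤ L ^ 2 C γ ^ (2 m)`. Let `F'` be `F` minus its mean and
`s m = ∑ w F' T^[m] F'`. Then `s m ≥ 0`, `s (m + 1) ^ 2 ≤ s m * s (m + 2)` (Cauchy and Schwarz for the form
`⟨·, T^[m] ·⟩`: `s (m + 1) = ⟨F', T^[m] (T F')⟩`, `s (m + 2) = ⟨T F', T^[m] (T F')⟩`), `s (2 m) = vr w (T^[m] F)`. So
`s 1 ≤ γ * s 0` by `S_LC`, where `s 0 = vr w F` and `s 0 - s 1 = lv w F / N` by `S_PRO`. (`N ≥ 1`.) -/
def S_AOP : Prop :=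
  ∀ (ι : Type) [Fintype ι] [DecidableEq ι] [PartialOrder ι] (N : ℕ)
    (w : (ι → Fin (N + 1)) → ℝ), 1 ≤ N → IsW w → ∀ (G₀ : (ι → Fin (N + 1)) → ℝ) (C γ : ℝ),
    (∀ c d, c < d → G₀ c + 1 ≤ G₀ d) → 0 ≤ γ →
    (∀ m : ℕ, vr w ((TT w)^[m] G₀) ≤ C * γ ^ (2 * m)) →
    ∀ F : (ι → Fin (N + 1)) → ℝ, (1 - γ) * vr w F ≤ lv w F / N

/-- The Poincare inequality for the conditioned product measure, with the constant of one particle. If `N = 0` there is
only one `c` and both sides are `0`. Let `N ≥ 1`, `γ = 1 - 1 / (K N)`, `G₀ c = ∑ i, (c i : ℝ)`. By `S_CLO`,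
`(TT w)^[m] G₀ c = ∑ i, h_m (c i)` for all order preserving `c`, where `w = ww q` and `h_m = (tt q)^[m] h_0`, `h_0 b = b`
(`cE w a F` depends only on the values of `F` at the order preserving maps, since `w = 0` at all others). Then, with
`μ = m1 q h_0`, `vr w (∑ h_m (c i)) ≤ ∑_c w c (∑_i (h_m (c_i) - μ)) ^ 2 ≤ n ∑_i ∑_c w c (h_m (c_i) - μ) ^ 2 ≤
n ^ 2 (∑ q) ^ (n - 1) ∑_b q b (h_m b - μ) ^ 2` because `vv ≤ 1`, and the last sum is `≤ γ ^ (2 m) * const` by `S_1OP`.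
Now `S_AOP` with `S_ISW`. -/
def S_DIS : Prop :=
  ∀ (ι : Type) [Fintype ι] [DecidableEq ι] [PartialOrder ι] (N : ℕ) (q : Fin (N + 1) → ℝ) (K : ℝ),
    (∀ b, 0 < q b) → 0 < K → P1 q K → ∀ F : (ι → Fin (N + 1)) → ℝ,
    vr (ww q) F ≤ K * lv (ww q) F

end Q289.OP
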