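import Pool.Agent.Q289.OP.Defs
import Pool.Agent.Q73.KL.Fin
import Pool.Agent.W695.KH.Defs

/-!
# Product measures conditioned on a partial order: statements of the continuous part
-/

set_option autoImplicit false

namespace Q289.OP

open MeasureTheory Set Filter Topology
open scoped ENNReal InnerProductSpace

/-! ### local variances of the discrete model -/

/-- A single label `i` in the cells `a`, `a + 1`. Moving it does not change `VS` (all other labels are in other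
cells, so the order relations between `c_i + u_i` and `c_j + u_j`, `j ≠ i`, do not change) and it preserves
monotonicity. -/
def S_VSU : Prop :=
  ∀ (ι : Type) [Fintype ι] [DecidableEq ι] [PartialOrder ι] (N : ℕ) (a : Fin N)
    (c : ι → Fin (N + 1)) (i : ι), c i = a.castSucc → (∀ j, j ≠ i → c j ≠ a.castSucc ∧ c j ≠ a.succ) →
    (VS fun j => ((Function.update c i a.succ j : Fin (N + 1)) : ℕ)) = (VS fun j => (c j : ℕ)) ∧
      (Monotone (Function.update c i a.succ) ↔ Monotone c)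

open Classical in
/-- The classes of `blk a` with a single label in the cells `a`, `a + 1`, and the others. If no label is in these
cells then the class of `c` is `{c}` and `cE w a F c = F c`. If the label `i` is the only one, the class consists of `c`
(with `c_i = a`) and `c' = update c i (a + 1)`, and `vv` agrees on both (`S_VSU`), so that the weights have the ratio
`q a : q (a + 1)` and the local variance `w c (F c - m) ^ 2 + w c' (F c' - m) ^ 2` is
`w c * q (a + 1) / (q a + q (a + 1)) * (F c' - F c) ^ 2`; if `c` is not order preserving all weights are `0`. -/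
def S_L1 : Prop :=
  ∀ (ι : Type) [Fintype ι] [DecidableEq ι] [PartialOrder ι] (N : ℕ) (q : Fin (N + 1) → ℝ),
    (∀ b, 0 < q b) → ∀ F : (ι → Fin (N + 1)) → ℝ,
    lv (ww q) F ≤
      (∑ a : Fin N, ∑ i : ι, ∑ c : ι → Fin (N + 1),
        if c i = a.castSucc ∧ Monotone c ∧ ∀ j, j ≠ i → c j ≠ a.castSucc ∧ c j ≠ a.succ then
          ww q c * (q a.succ / (q a.castSucc + q a.succ)) * (F (Function.update c i a.succ) - F c) ^ 2
        else 0) +
      ∑ a : Fin N, ∑ c : ι → Fin (N + 1),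
        if ∃ i j : ι, i ≠ j ∧ (c i = a.castSucc ∨ c i = a.succ) ∧ (c j = a.castSucc ∨ c j = a.succ) then
          ww q c * (F c - cE (ww q) a F c) ^ 2 else 0

open Classical in
/-- Two labels in the cells `a`, `a + 1`: `|F c - cE F c| ≤ ω` if `c` is order preserving (the weights vanish for the
other maps), `vv ≤ 1`, and for given `i ≠ j` the sum of `∏ q(c_k)` over the `c` with `c_i` and `c_j` in
`{a, a + 1}` is `(q a + q (a + 1)) ^ 2 * (∑ q) ^ (n - 2)`. -/
def S_L2 : Prop :=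
  ∀ (ι : Type) [Fintype ι] [DecidableEq ι] [PartialOrder ι] (N : ℕ) (q : Fin (N + 1) → ℝ),
    (∀ b, 0 < q b) → ∀ (F : (ι → Fin (N + 1)) → ℝ) (ω : ℝ), 0 ≤ ω →
    (∀ (a : Fin N) (c d : ι → Fin (N + 1)), Monotone c → Monotone d → blk a c d → |F c - F d| ≤ ω) →
    (∑ b, q b) ^ 2 * (∑ a : Fin N, ∑ c : ι → Fin (N + 1),
        if ∃ i j : ι, i ≠ j ∧ (c i = a.castSucc ∨ c i = a.succ) ∧ (c j = a.castSucc ∨ c j = a.succ) then
          ww q c * (F c - cE (ww q) a F c) ^ 2 else 0) ≤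
      ω ^ 2 * (Fintype.card ι : ℝ) ^ 2 * (∑ a : Fin N, (q a.castSucc + q a.succ) ^ 2) *
        (∑ b, q b) ^ Fintype.card ι

/-! ### from cells to densities -/

/-- Riemann sums. The change of variables `x = pt A B N c u` (it maps `VS c` onto the set of the order preserving `x`
with `x_i` in the cell `c_i`, `[A + dl c_i, A + dl (c_i + 1))`, with Jacobian `dl ^ n`) gives
`IN φ A B N g = ∫ g(x) ∏ φ_N(x_i)` over the order preserving `x ∈ [A, B) ^ ι`, where `φ_N = qq b / dl` on the cell `b`.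
`φ_N → φ` uniformly on `[A, B)` as `φ` is uniformly continuous on `[A, B]`, `g` is bounded on the box. -/
def S_RIE : Prop :=
  ∀ (ι : Type) [Fintype ι] [DecidableEq ι] [PartialOrder ι] (φ : ℝ → ℝ) (A B : ℝ), Gd φ A B →
    ∀ g : (ι → ℝ) → ℝ, Continuous g → Tendsto (fun N => IN φ A B N g) atTop (𝓝 (IA φ A B g))

/-- Averages over cells. If `vv c = 0` then `VS c` is a null set and all terms with this `c` vanish. Otherwise
`(∫_{VS c} f ^ 2) / vv c - (av f c) ^ 2 = (∫_{VS c} (f - av f c) ^ 2) / vv c ≤ ω ^ 2`. -/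
def S_AVG : Prop :=
  ∀ (ι : Type) [Fintype ι] [DecidableEq ι] [PartialOrder ι] (φ : ℝ → ℝ) (A B : ℝ), Gd φ A B →
    ∀ (N : ℕ) (f : (ι → ℝ) → ℝ), Continuous f →
    (∀ b, 0 < qq φ A B N b) ∧
      ∑ c : ι → Fin (N + 1), ww (qq φ A B N) c * av A B N f c = IN φ A B N f ∧
      ∑ c : ι → Fin (N + 1), ww (qq φ A B N) c = IN (ι := ι) φ A B N (fun _ => 1) ∧
      ∀ ω : ℝ, (∀ x y : ι → ℝ, (∀ i, x i ∈ Icc A B) → (∀ i, y i ∈ Icc A B) →
        (∀ i, |x i - y i| ≤ dl A B N) → |f x - f y| ≤ ω) →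
        IN φ A B N (fun x => f x ^ 2) ≤
          ∑ c : ι → Fin (N + 1), ww (qq φ A B N) c * av A B N f c ^ 2 + ω ^ 2 * IN (ι := ι) φ A B N (fun _ => 1)

/-- The local variances of the averages. Write `δ = dl A B N`, `q = qq φ A B N`, `F = av A B N f`. All `o(1)` below are
uniform in the cells and points, as `δ → 0`. By `S_L1` it is enough to bound two sums.
First sum: `q (a + 1) / (q a + q (a + 1)) ≤ (1 + o(1)) / 2` because `φ` is positive and uniformly continuous on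
`[A, B]`. With `c' = update c i (a + 1)` one has `VS c' = VS c` (`S_VSU`) and `pt c' u = pt c u + δ e_i`, so
`(F c' - F c) ^ 2 = ((∫_{VS c} (f (pt c u + δ e_i) - f (pt c u))) / vv c) ^ 2 ≤
(∫_{VS c} (f (pt c u + δ e_i) - f (pt c u)) ^ 2) / vv c` and `f (x + δ e_i) - f x = δ (∂_i f x + o(1))`. So the first
sum is at most `(δ ^ 2 / 2) (1 + o(1)) ∑_i ∑_c ∏ q(c_j) ∫_{VS c} ((∂_i f) ^ 2 + o(1)) ≤
(δ ^ 2 / 2) (1 + o(1)) (IN (gr f) + o(1))`, and `IN (gr f)` is bounded.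
Second sum: `S_L2` with `ω = C δ` (`f` is Lipschitz on the box; if `d` is in the `blk a`-class of `c` and both are order
preserving, the points of the two cells differ by at most `2 δ` in every coordinate); `∑ q = ∫_A^B φ` does not depend on
`N`, and `∑_a (q a + q (a + 1)) ^ 2 ≤ 2 max (q a + q (a + 1)) * ∑ q = O(δ)`. So it is `O(δ ^ 3)`. -/
def S_LOC : Prop :=
  ∀ (ι : Type) [Fintype ι] [DecidableEq ι] [PartialOrder ι] (φ : ℝ → ℝ) (A B : ℝ), Gd φ A B →
    ∀ f : (ι → ℝ) → ℝ, ContDiff ℝ 1 f → ∀ ε : ℝ, 0 < ε → ∀ᶠ N : ℕ in atTop,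
    lv (ww (qq φ A B N)) (av (ι := ι) A B N f) ≤ dl A B N ^ 2 / 2 * (IN φ A B N (gr f) + ε)

/-- One particle. Write `δ = dl A B N`, `q = qq φ A B N`, `x_b = A + δ (b + 1/2)` for the centre of the cell `b`. Let
`η > 0` be small and `s : [0, 1] → [0, 1]` be `C¹` with `s 0 = 0`, `s 1 = 1`, `s' ≥ 0`, `s' 0 = s' 1 = 0` and
`s' ≤ 1 + η`, so that `∫ s' ^ 2 ≤ 1 + η`. For `g : Fin (N + 1) → ℝ` let `G x = g a + (g (a + 1) - g a) s((x - x_a) / δ)` on
`[x_a, x_{a + 1}]`, `G = g 0` on `(-∞, x_0]` and `G = g N` on `[x_N, ∞)`: this is `C¹`, bounded, with bounded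
derivative, and `∫ G' ^ 2 φ ≤ ∑_a (g (a + 1) - g a) ^ 2 / δ ^ 2 * (1 + η) δ max_{[x_a, x_{a + 1}]} φ ≤
(2 / δ ^ 2) (1 + η) (1 + o(1)) D1 q g` since `q a * q (a + 1) / (q a + q (a + 1)) = (1 + o(1)) δ φ / 2` uniformly. On the cell
`b` one has `|G - g b| ≤ |g b - g (b - 1)| + |g (b + 1) - g b|` (one term at the ends), so
`∑_b ∫_{cell b} (G - g b) ^ 2 φ ≤ C' D1 q g` with a constant `C'` independent of `N`. With the mean `m` of `G`,
`∑ q_b (g b - m) ^ 2 = ∑ ∫_{cell b} (g b - m) ^ 2 φ ≤ (1 + η) ∫ (G - m) ^ 2 φ + (1 + 1 / η) C' D1 q g ≤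
((1 + η) C (2 / δ ^ 2) (1 + η) (1 + o(1)) + (1 + 1 / η) C') D1 q g`, and `δ → 0`. -/
def S_1D : Prop :=
  ∀ (φ : ℝ → ℝ) (A B C : ℝ), (∀ x, 0 ≤ φ x) → Integrable φ → Gd φ A B → 0 < C → Poin1 φ C →
    ∀ ε : ℝ, 0 < ε → ∀ᶠ N : ℕ in atTop, P1 (qq φ A B N) (2 * C * (1 + ε) / dl A B N ^ 2)

/-- The Poincare inequality in a box: apply `S_DIS` (in `Pool.Agent.Q289.OP.Stm`; here as a hypothesis `hdis`) with
`q = qq φ A B N`, `K = 2 C (1 + ε) / dl ^ 2`, `F = av f`, `vr w F = ∑ w F ^ 2 - (∑ w F) ^ 2 / ∑ w`, then `S_AVG` (with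
`ω = ω_N → 0` by uniform continuity of `f` on the box), `S_LOC`, `S_1D`:
`IN 1 * IN f² - ω² (IN 1)² - (IN f)² ≤ C (1 + ε) IN 1 (IN (gr f) + ε)`; let `N → ∞` (`S_RIE`), then `ε → 0`. -/
def S_BOX : Prop :=
  ∀ (ι : Type) [Fintype ι] [DecidableEq ι] [PartialOrder ι] (φ : ℝ → ℝ) (A B C : ℝ),
    (∀ x, 0 ≤ φ x) → Integrable φ → Gd φ A B → 0 < C → Poin1 φ C →
    ∀ f : (ι → ℝ) → ℝ, ContDiff ℝ 1 f →
    IA (ι := ι) φ A B (fun _ => 1) * IA φ A B (fun x => f x ^ 2) - IA φ A B f ^ 2 ≤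
      C * (IA (ι := ι) φ A B (fun _ => 1) * IA φ A B (gr f))

/-! ### the whole space -/

/-- Exhaustion: let `A_k`, `B_k` decrease, increase to the ends of the open interval `U` of `Dn.supp` (`U` may be
unbounded), inside `U`; then `Gd φ A_k B_k`. `IA φ A_k B_k g → ∫ g den` for bounded measurable `g` by dominated
convergence (`den φ x ≤ ∏ φ(x_i)`, which is integrable, and `den φ x = 0` for almost every `x` with some `x_i ∉ U`), and
`IA φ A_k B_k (gr f) ≤ ∫ gr f den`, the last integral as a lower integral, possibly `∞`. Use `S_BOX`. -/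
def S_FUL : Prop :=
  ∀ (ι : Type) [Fintype ι] [DecidableEq ι] [PartialOrder ι] (φ : ℝ → ℝ) (C : ℝ), Dn φ → 0 < C → Poin1 φ C →
    (Integrable fun x : ι → ℝ => den φ x) ∧ 0 < ∫ x : ι → ℝ, den φ x ∧
    ∀ f : (ι → ℝ) → ℝ, ContDiff ℝ 1 f → (∃ M, ∀ x, |f x| ≤ M) →
    ENNReal.ofReal ((∫ x : ι → ℝ, den φ x) * (∫ x, f x ^ 2 * den φ x) - (∫ x, f x * den φ x) ^ 2) ≤
      ENNReal.ofReal (C * ∫ x : ι → ℝ, den φ x) * ∫⁻ x, ENNReal.ofReal (gr f x * den φ x)

/-- The Poincare inequality. Bounded `f`: this is `S_FUL` on the Euclidean space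
(`EuclideanSpace.volume_preserving_symm_measurableEquiv_toLp` or similar; `‖fderiv f x‖ ^ 2` is the sum of the squares of
the partial derivatives), divided by the square of `∫ den`. In general let `f_R = R arctan(f / R)`, `R > 0`:
`‖∇ f_R‖ ≤ ‖∇ f‖`, `f_R → f`. Let `E = C ∫ ‖∇ f‖²`, finite without loss of generality. `Var f_R ≤ E`, the means `m_R` of `f_R` are
bounded (on a set `{|f| ≤ T}` of measure `≥ 1/2` one has `|f_R| ≤ T`, so `(|m_R| - T)_+ ^ 2 / 2 ≤ E`), so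
`m_R → m` along a sequence, and `∫ (f - m) ^ 2 ≤ E` by Fatou's lemma; hence `f ∈ L²` and the variance is at most `E`
(see `Pool.Agent.Q73.KL.var_of_lint`). -/
def S_T : Prop :=
  ∀ (ι : Type) [Fintype ι] [PartialOrder ι] (φ : ℝ → ℝ) (C : ℝ), Dn φ → 0 < C → Poin1 φ C →
    IsProbabilityMeasure (mu ι φ) ∧ ∀ f : EuclideanSpace ℝ ι → ℝ, ContDiff ℝ 1 f →
    ProbabilityTheory.evariance f (mu ι φ) ≤
      ENNReal.ofReal C * ∫⁻ x, ENNReal.ofReal (‖fderiv ℝ f x‖ ^ 2) ∂(mu ι φ)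

/-! ### symmetric functions -/

/-- Symmetric functions do not see the conditioning. For `σ : Equiv.Perm ι` the map `x ↦ x ∘ σ` preserves the volume, so
`∫⁻_{x monotone} G = ∫⁻_{x ∘ σ monotone} G`. Sum over `σ`: for injective `x` (almost every `x`) the number of the `σ`
such that `x ∘ σ` is monotone does not depend on `x` (it is the number of the linear extensions: `x = y ∘ τ` with a
fixed enumeration...; compare `x` with a fixed injective `y` through the permutation `τ` for which `x` and `y ∘ τ` are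
ordered in the same way) and it is at least `1` (there is an injective monotone `ι → ℝ`). `κ = number / n!`. -/
def S_SYM : Prop :=
  ∀ (ι : Type) [Fintype ι] [DecidableEq ι] [PartialOrder ι], ∃ κ : ℝ≥0∞, κ ≠ 0 ∧ κ ≠ ⊤ ∧
    ∀ G : (ι → ℝ) → ℝ≥0∞, Measurable G → (∀ (σ : Equiv.Perm ι) (x : ι → ℝ), G (x ∘ σ) = G x) →
    ∫⁻ x in {x : ι → ℝ | Monotone x}, G x = κ * ∫⁻ x, G x

/-- A bound of the one-dimensional constant. Let `Z = ∫ φ`, `ρ` the probability measure with density `φ / Z`. By `S_SYM`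
with `G x = ofReal ((∑ x_i - a) ^ 2 * ∏ φ(x_i))` (`a` the mean of `∑ x_i` for `mu`) and with
`G x = ofReal (∏ φ(x_i))`: `∫⁻ (∑ x_i - a) ^ 2 d(ρ ^ n) = evariance (∑ x_i) (mu) ≤ s n < ∞`. Hence (Fubini) `x_i` has a
finite second moment for `ρ`, and the left side is at least the variance of the sum of `n` independent variables with
law `ρ`, `n Var ρ`. So `Var ρ ≤ s`. Finally `QD.var_lo` with `LC1.qd` and `QD.push`
(`Pool.Agent.Q73.KL`, files `Dis`, `Qu`): `(Z / φ(Q(1/2))) ^ 2 / 64 ≤ Var ρ`. -/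
def S_VAR : Prop :=
  ∀ (ι : Type) [Fintype ι] [DecidableEq ι] [PartialOrder ι] [Nonempty ι] (φ : ℝ → ℝ) (s : ℝ),
    Pool.Agent.Q73.KL.LC1 φ → 0 ≤ s →
    ProbabilityTheory.evariance (fun x : EuclideanSpace ℝ ι => ∑ i, x i) (mu ι φ) ≤
      ENNReal.ofReal (s * Fintype.card ι) →
    ((∫ y, φ y) / φ (Pool.Agent.Q73.KL.LC1.Qf φ (1 / 2))) ^ 2 ≤ 64 * s

/-- Log-concave densities on the line. `Dn`: `U = LC1.Us φ` (`LC1.U_open`, `LC1.U_conv`, `LC1.F_cont`, `LC1.F_pos`,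
`LC1.Q_mem` for nonempty; the integral of `φ` outside `U` is `0`, see the proof of `LC1.qd`). `Poin1`: `QD.poin`
(file `Poin`) with `ψ = g / L`, `δ = g' / L`, `W = q(1/2)`, and `QD.push`. The constant is `q(1/2) ^ 2`. -/
def S_1DLC : Prop :=
  ∀ φ : ℝ → ℝ, Pool.Agent.Q73.KL.LC1 φ →
    Dn φ ∧ 0 < ((∫ y, φ y) / φ (Pool.Agent.Q73.KL.LC1.Qf φ (1 / 2))) ^ 2 ∧
      Poin1 φ (((∫ y, φ y) / φ (Pool.Agent.Q73.KL.LC1.Qf φ (1 / 2))) ^ 2)

/-! ### convex bodies -/

/-- From Poincare to Cheeger. Use `Pool.Agent.W695.KH.body` and `Pool.Agent.W695.KH.mink`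
(`Pool/Agent/W695/KH/Final.lean`). `WPo (Uu D A) δ (δ / (2 C))` for all large `A`: let `|v| ≤ 1` be `C¹` with variance
at least `δ` for the measure `exp(-Uu D A) dx`. This probability measure has the density `1 / Z_A` on `D`,
`Z_A → vol D` as `A → ∞` (`S_lim` with `g = 1` or directly), so its distance to the uniform measure on `D` in total
variation tends to `0`, uniformly `VV D v ≥ 3 δ / 4`, say, for large `A`, and the energy is at least
`(vol D / Z_A) EV D (‖∇ v‖ ^ 2) ≥ (vol D / Z_A) (3 δ / 4) / C ≥ δ / (2 C)`. Hence, if `|f| ≤ 1/2` and `V = VV D f > 0`, take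
`δ = V / 5`: `V ≤ 4 (2 C / δ) (EV D ‖∇ f‖) ^ 2 = (40 C / V) (EV D ‖∇ f‖) ^ 2`, `V ≤ 7 √C EV D ‖∇ f‖`. Then `mink`. -/
def S_CHE : Prop :=
  ∀ (κ : Type) [Fintype κ] (D : Set (EuclideanSpace ℝ κ)), IsCompact D → Convex ℝ D → 0 < volume D →
    ∀ C : ℝ, 0 < C →
    (∀ f : EuclideanSpace ℝ κ → ℝ, ContDiff ℝ 1 f → (∀ x, |f x| ≤ 1) →
      Pool.Agent.W695.KH.VV D f ≤ C * Pool.Agent.W695.KH.EV D fun x => ‖fderiv ℝ f x‖ ^ 2) →
    ∀ μ : Measure (EuclideanSpace ℝ κ), μ = (volume D)⁻¹ • volume.restrict D →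
    ∀ S : Set (EuclideanSpace ℝ κ), MeasurableSet S → μ S * (1 - μ S) ≤
      ENNReal.ofReal (7 * Real.sqrt C) *
        liminf (fun ε : ℝ => (μ (Metric.thickening ε S) - μ S) / ENNReal.ofReal ε) (𝓝[>] 0)

/-- Order polytopes. `D` is closed, bounded, convex; it has positive volume because it contains all `x` near
`a + (b - a) (r_i + 1) / (n + 2)`, `r_i` the number of the `j < i`. `den φ` is the indicator function of `D`. `φ` is the
indicator function of `[a, b]`: it is log-concave. -/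
def S_ORD : Prop :=
  ∀ (ι : Type) [Fintype ι] [PartialOrder ι] (a b : ℝ), a < b →
    IsCompact {x : EuclideanSpace ℝ ι | (∀ i, x i ∈ Icc a b) ∧ Monotone fun i => x i} ∧
    Convex ℝ {x : EuclideanSpace ℝ ι | (∀ i, x i ∈ Icc a b) ∧ Monotone fun i => x i} ∧
    (interior {x : EuclideanSpace ℝ ι | (∀ i, x i ∈ Icc a b) ∧ Monotone fun i => x i}).Nonempty ∧
    mu ι ((Icc a b).indicator fun _ => 1) =
      (volume {x : EuclideanSpace ℝ ι | (∀ i, x i ∈ Icc a b) ∧ Monotone fun i => x i})⁻¹ •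
        volume.restrict {x : EuclideanSpace ℝ ι | (∀ i, x i ∈ Icc a b) ∧ Monotone fun i => x i} ∧
    Pool.Agent.Q73.KL.LC1 ((Icc a b).indicator fun _ => 1)

end Q289.OP
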