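import Pool.Agent.Q289.OP.Fin1
import Pool.Agent.Q208.OP.SFul
import Pool.Agent.Q25.OP.Sym

/-!
# Product measures conditioned on a partial order: the two assembled statements
-/

set_option autoImplicit false

namespace Q289.OP

theorem tS : S_T := Pool.Agent.Q31.OP.tt_thm (Pool.Agent.Q208.OP.ful boxS)

end Q289.OP
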