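import Pool.Agent.Q137.OP.Wrap
import Pool.Agent.Q149.OP.DIS
import Pool.Agent.Q151.OP.LC
import Pool.Agent.Q151.OP.OneOp
import Pool.Agent.Q151.OP.PRO
import Pool.Agent.Q166.OP.Loc
import Pool.Agent.Q177.OP.CLO
import Pool.Agent.Q177.OP.SCA
import Pool.Agent.Q195.OP.AVG
import Pool.Agent.Q208.OP.SOneD
import Pool.Agent.Q237.OP.Aop
import Pool.Agent.Q237.OP.Box
import Pool.Agent.Q237.OP.Che
import Pool.Agent.Q237.OP.Lc1
import Pool.Agent.Q237.OP.Len
import Pool.Agent.Q237.OP.Ord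
import Pool.Agent.Q237.OP.Var
import Pool.Agent.Q238.OP.Fkg
import Pool.Agent.Q262.OP.RIE
import Pool.Agent.Q31.OP.TT
import Pool.Agent.Q38.OP.Mono
import Pool.Agent.Q53.OP.Cnt
import Pool.Agent.Q68.OP.Asso
import Pool.Agent.Q68.OP.Vpos

/-!
# Product measures conditioned on a partial order: assembly
-/

set_option autoImplicit false

namespace Q289.OP

theorem fkgVv : S_FKG := Pool.Agent.Q238.OP.fkg_vv Q53.OP.cnt_le

theorem vposS : S_VPOS := Pool.Agent.Q68.OP.vpos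

theorem iswS : S_ISW := Pool.Agent.Q238.OP.isw fkgVv vposS

theorem cloS : S_CLO := Q177.OP.CLO.clo (Q177.OP.SCA.sca Q237.OP.Len.len) vposS

theorem aopS : S_AOP :=
  Q237.OP.Aop.aop Q38.OP.mono Pool.Agent.Q68.OP.asso Pool.Agent.Q151.OP.pro Pool.Agent.Q151.OP.lc

theorem disS : S_DIS := Pool.Agent.Q149.OP.dis iswS cloS Pool.Agent.Q151.OP.oneop aopS vposS

theorem locS : S_LOC :=
  Pool.Agent.Q166.OP.loc vposS Pool.Agent.Q137.OP.vsu Pool.Agent.Q137.OP.l1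
    (Pool.Agent.Q137.OP.l2 vposS) Pool.Agent.Q262.OP.RIE.t

theorem boxS : S_BOX :=
  Q237.OP.Box.box disS (Pool.Agent.Q195.OP.avg vposS) locS Pool.Agent.Q208.OP.oned
    Pool.Agent.Q262.OP.RIE.t

end Q289.OP
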