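import Mathlib

/-!
# Product measures conditioned on a partial order: definitions

`ι` is a finite partially ordered set. For a density `φ` on the line, `mu φ` is the law of independent
variables `x_i`, `i ∈ ι`, with density proportional to `φ`, conditioned on `x_i ≤ x_j` for all `i ≤ j`.
-/

set_option autoImplicit false

namespace Q289.OP

open MeasureTheory Set Filter Topology

/-! ### the discrete model: cells -/

section

variable {ι : Type} [Fintype ι] [DecidableEq ι] [PartialOrder ι]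

/-- the points `u` of the unit cube for which `c + u` is order preserving -/
def VS (c : ι → ℕ) : Set (ι → ℝ) :=
  {u | (∀ i, u i ∈ Ico (0 : ℝ) 1) ∧ Monotone fun i => (c i : ℝ) + u i}

/-- the volume of `VS c` -/
noncomputable def vv (c : ι → ℕ) : ℝ := (volume (VS c)).toReal

/-- number of the order preserving `y` with `M c_i ≤ y_i < M c_i + M` -/
noncomputable def cnt (c : ι → ℕ) (M : ℕ) : ℕ :=
  Set.ncard {y : ι → ℕ | (∀ i, M * c i ≤ y i ∧ y i < M * c i + M) ∧ Monotone y}

variable {N : ℕ}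

/-- weight of the cell `c` -/
noncomputable def ww (q : Fin (N + 1) → ℝ) (c : ι → Fin (N + 1)) : ℝ :=
  (∏ i, q (c i)) * vv fun i => (c i : ℕ)

/-- `d` arises from `c` by moving labels between the cells `a` and `a + 1` -/
def blk (a : Fin N) (c d : ι → Fin (N + 1)) : Prop :=
  ∀ i, d i = c i ∨ ((c i = a.castSucc ∨ c i = a.succ) ∧ (d i = a.castSucc ∨ d i = a.succ))

open Classical in
/-- conditional expectation of `F`, given everything but the distribution of the labels over the two
cells `a`, `a + 1` -/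
noncomputable def cE (w : (ι → Fin (N + 1)) → ℝ) (a : Fin N) (F : (ι → Fin (N + 1)) → ℝ)
    (c : ι → Fin (N + 1)) : ℝ :=
  (∑ d, if blk a c d then w d * F d else 0) / ∑ d, if blk a c d then w d else 0

/-- average of the conditional expectations -/
noncomputable def TT (w : (ι → Fin (N + 1)) → ℝ) (F : (ι → Fin (N + 1)) → ℝ)
    (c : ι → Fin (N + 1)) : ℝ := (∑ a, cE w a F c) / N

/-- `F` is increasing on the order preserving maps -/
def MonO (F : (ι → Fin (N + 1)) → ℝ) : Prop :=
  ∀ c d, Monotone c → Monotone d → c ≤ d → F c ≤ F d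

/-- lattice weights carried by the order preserving maps -/
structure IsW (w : (ι → Fin (N + 1)) → ℝ) : Prop where
  nonneg : ∀ c, 0 ≤ w c
  pos : ∀ c, 0 < w c ↔ Monotone c
  lat : ∀ c d, w c * w d ≤ w (c ⊓ d) * w (c ⊔ d)

/-- mean -/
noncomputable def mm (w : (ι → Fin (N + 1)) → ℝ) (F : (ι → Fin (N + 1)) → ℝ) : ℝ :=
  (∑ c, w c * F c) / ∑ c, w c

/-- variance, not normalised -/
noncomputable def vr (w : (ι → Fin (N + 1)) → ℝ) (F : (ι → Fin (N + 1)) → ℝ) : ℝ :=
  ∑ c, w c * (F c - mm w F) ^ 2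

/-- sum of the local variances, not normalised -/
noncomputable def lv (w : (ι → Fin (N + 1)) → ℝ) (F : (ι → Fin (N + 1)) → ℝ) : ℝ :=
  ∑ a : Fin N, ∑ c, w c * (F c - cE w a F c) ^ 2

end

section

variable {N : ℕ}

/-- one particle: average over the cells `a`, `a + 1` -/
noncomputable def t1 (q : Fin (N + 1) → ℝ) (a : Fin N) (g : Fin (N + 1) → ℝ) (b : Fin (N + 1)) : ℝ :=
  if b = a.castSucc ∨ b = a.succ then
    (q a.castSucc * g a.castSucc + q a.succ * g a.succ) / (q a.castSucc + q a.succ) else g b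

/-- one particle: average of the `t1` -/
noncomputable def tt (q : Fin (N + 1) → ℝ) (g : Fin (N + 1) → ℝ) (b : Fin (N + 1)) : ℝ :=
  (∑ a, t1 q a g b) / N

/-- one particle: Dirichlet form -/
noncomputable def D1 (q : Fin (N + 1) → ℝ) (g : Fin (N + 1) → ℝ) : ℝ :=
  ∑ a : Fin N, q a.castSucc * q a.succ / (q a.castSucc + q a.succ) * (g a.succ - g a.castSucc) ^ 2

/-- one particle: mean -/
noncomputable def m1 (q : Fin (N + 1) → ℝ) (g : Fin (N + 1) → ℝ) : ℝ :=
  (∑ b, q b * g b) / ∑ b, q b

/-- one particle: Poincare inequality with constant `K` -/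
def P1 (q : Fin (N + 1) → ℝ) (K : ℝ) : Prop :=
  ∀ g : Fin (N + 1) → ℝ, ∃ m : ℝ, ∑ b, q b * (g b - m) ^ 2 ≤ K * D1 q g

end

/-! ### continuous densities on `[A, B]` -/

/-- continuous positive density on `[A, B]` -/
structure Gd (φ : ℝ → ℝ) (A B : ℝ) : Prop where
  lt : A < B
  cont : ContinuousOn φ (Icc A B)
  pos : ∀ x ∈ Icc A B, 0 < φ x

/-- cell length: `[A, B)` is divided into `N + 1` cells -/
noncomputable def dl (A B : ℝ) (N : ℕ) : ℝ := (B - A) / (N + 1)

/-- masses of the cells -/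
noncomputable def qq (φ : ℝ → ℝ) (A B : ℝ) (N : ℕ) (b : Fin (N + 1)) : ℝ :=
  ∫ x in Ico (A + dl A B N * (b : ℕ)) (A + dl A B N * ((b : ℕ) + 1)), φ x

section

variable {ι : Type} [Fintype ι] [DecidableEq ι] [PartialOrder ι]

/-- the point with relative coordinates `u` in the cell `c` -/
noncomputable def pt (A B : ℝ) (N : ℕ) (c : ι → Fin (N + 1)) (u : ι → ℝ) : ι → ℝ :=
  fun i => A + dl A B N * ((c i : ℕ) + u i)

/-- integral of `g` for the step densities -/
noncomputable def IN (φ : ℝ → ℝ) (A B : ℝ) (N : ℕ) (g : (ι → ℝ) → ℝ) : ℝ :=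
  ∑ c : ι → Fin (N + 1), (∏ i, qq φ A B N (c i)) *
    ∫ u in VS (fun i => (c i : ℕ)), g (pt A B N c u)

/-- integral of `g ∏ φ(x_i)` over the order preserving `x` in `[A, B)^ι` -/
noncomputable def IA (φ : ℝ → ℝ) (A B : ℝ) (g : (ι → ℝ) → ℝ) : ℝ :=
  ∫ x in {x : ι → ℝ | (∀ i, x i ∈ Ico A B) ∧ Monotone x}, g x * ∏ i, φ (x i)

/-- average of `f` over the cell `c` -/
noncomputable def av (A B : ℝ) (N : ℕ) (f : (ι → ℝ) → ℝ) (c : ι → Fin (N + 1)) : ℝ :=
  (∫ u in VS (fun i => (c i : ℕ)), f (pt A B N c u)) / vv fun i => (c i : ℕ)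

/-- squared norm of the gradient -/
noncomputable def gr (f : (ι → ℝ) → ℝ) (x : ι → ℝ) : ℝ :=
  ∑ i, (fderiv ℝ f x (Pi.single i 1)) ^ 2

end

/-! ### densities on the line -/

/-- Poincare inequality with constant `C` for the density `φ` on the line, for bounded functions with
bounded continuous derivative -/
def Poin1 (φ : ℝ → ℝ) (C : ℝ) : Prop :=
  ∀ g : ℝ → ℝ, ContDiff ℝ 1 g → (∃ M, ∀ x, |g x| ≤ M) → (∃ L, ∀ x, |deriv g x| ≤ L) →
    ∫ x, (g x - (∫ y, g y * φ y) / ∫ y, φ y) ^ 2 * φ x ≤ C * ∫ x, deriv g x ^ 2 * φ x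

/-- integrable densities which are continuous and positive on an open interval and vanish outside -/
structure Dn (φ : ℝ → ℝ) : Prop where
  nonneg : ∀ x, 0 ≤ φ x
  meas : Measurable φ
  int : Integrable φ
  supp : ∃ U : Set ℝ, IsOpen U ∧ U.OrdConnected ∧ U.Nonempty ∧ ContinuousOn φ U ∧
    (∀ x ∈ U, 0 < φ x) ∧ ∀ᵐ x : ℝ, x ∉ U → φ x = 0

section

variable {ι : Type} [Fintype ι] [PartialOrder ι]

open Classical in
/-- density of the conditioned product measure, not normalised -/
noncomputable def den (φ : ℝ → ℝ) (x : ι → ℝ) : ℝ := if Monotone x then ∏ i, φ (x i) else 0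

variable (ι)

/-- the conditioned product measure on `ι → ℝ`, not normalised -/
noncomputable def nu (φ : ℝ → ℝ) : Measure (ι → ℝ) :=
  volume.withDensity fun x => ENNReal.ofReal (den φ x)

/-- the conditioned product measure on the Euclidean space, not normalised -/
noncomputable def om (φ : ℝ → ℝ) : Measure (EuclideanSpace ℝ ι) :=
  volume.withDensity fun x => ENNReal.ofReal (den φ fun i => x i)

/-- the law of independent variables with density `φ / ∫ φ`, conditioned to be order preserving -/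
noncomputable def mu (φ : ℝ → ℝ) : Measure (EuclideanSpace ℝ ι) := (om ι φ univ)⁻¹ • om ι φ

end

end Q289.OP
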