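import Pool.Agent.Q289.OP.Asm
import Pool.Agent.Q289.OP.Stm2

/-!
# Product measures conditioned on a partial order: final statements
-/

set_option autoImplicit false

namespace Q289.OP

open MeasureTheory Set Filter Topology
open scoped ENNReal InnerProductSpace

/-- independent variables with density `φ` on the Euclidean space -/
noncomputable def iid (ι : Type) [Fintype ι] (φ : ℝ → ℝ) : Measure (EuclideanSpace ℝ ι) :=
  volume.withDensity fun x => ENNReal.ofReal (∏ i, φ (x i))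

/-- the set of the order preserving points is closed -/
theorem isClosed_mono (ι : Type) [Fintype ι] [PartialOrder ι] :
    IsClosed {x : EuclideanSpace ℝ ι | Monotone fun i => x i} := by
  have : {x : EuclideanSpace ℝ ι | Monotone fun i => x i} =
      ⋂ (i : ι) (j : ι) (_ : i ≤ j), {x : EuclideanSpace ℝ ι | x i ≤ x j} := by
    ext x
    simp only [mem_ofPred_eq, mem_iInter, Monotone]
  rw [this]
  refine isClosed_iInter fun i => isClosed_iInter fun j => isClosed_iInter fun _ => ?_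
  exact isClosed_le (by fun_prop) (by fun_prop)

theorem restrict_iid (ι : Type) [Fintype ι] [PartialOrder ι] (φ : ℝ → ℝ) :
    (iid ι φ).restrict {x : EuclideanSpace ℝ ι | Monotone fun i => x i} = om ι φ := by
  unfold iid om
  rw [restrict_withDensity (isClosed_mono ι).measurableSet,
    ← withDensity_indicator (isClosed_mono ι).measurableSet]
  congr 1
  funext x
  unfold den
  by_cases h : Monotone fun i => x i
  · rw [indicator_of_mem (show x ∈ {x : EuclideanSpace ℝ ι | Monotone fun i => x i} from h), if_pos h]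
  · rw [indicator_of_notMem (show x ∉ {x : EuclideanSpace ℝ ι | Monotone fun i => x i} from h), if_neg h]
    simp

theorem cond_eq (ι : Type) [Fintype ι] [PartialOrder ι] (φ : ℝ → ℝ) :
    ProbabilityTheory.cond (iid ι φ) {x : EuclideanSpace ℝ ι | Monotone fun i => x i} = mu ι φ := by
  unfold ProbabilityTheory.cond mu
  rw [restrict_iid]
  congr 2
  rw [← restrict_iid, Measure.restrict_apply_univ]

/-- `(1, …, 1)` -/
noncomputable def one (ι : Type) [Fintype ι] : EuclideanSpace ℝ ι := WithLp.toLp 2 fun _ => 1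

theorem inner_one (ι : Type) [Fintype ι] (x : EuclideanSpace ℝ ι) : ⟪one ι, x⟫_ℝ = ∑ i, x i := by
  simp [one, PiLp.inner_apply]

theorem norm_one_sq (ι : Type) [Fintype ι] : ‖one ι‖ ^ 2 = Fintype.card ι := by
  rw [EuclideanSpace.norm_sq_eq]
  simp [one]

/-- the constant of a log-concave density -/
noncomputable def cc (φ : ℝ → ℝ) : ℝ := ((∫ y, φ y) / φ (Pool.Agent.Q73.KL.LC1.Qf φ (1 / 2))) ^ 2

theorem cc_le (hv : S_VAR) (ι : Type) [Fintype ι] [PartialOrder ι] [Nonempty ι] {φ : ℝ → ℝ}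
    (h : Pool.Agent.Q73.KL.LC1 φ) {s : ℝ} (hs : 0 ≤ s)
    (hcov : ∀ θ : EuclideanSpace ℝ ι, ProbabilityTheory.evariance (fun x => ⟪θ, x⟫_ℝ) (mu ι φ) ≤
      ENNReal.ofReal (s * ‖θ‖ ^ 2)) : cc φ ≤ 64 * s := by
  classical
  refine hv ι φ s h hs ?_
  have h1 := hcov (one ι)
  simp only [inner_one] at h1
  rwa [norm_one_sq] at h1

theorem kls (ht : S_T) (hv : S_VAR) (ι : Type) [Fintype ι] [PartialOrder ι] [Nonempty ι] {φ : ℝ → ℝ}
    (h : Pool.Agent.Q73.KL.LC1 φ) {s : ℝ} (hs : 0 ≤ s)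
    (hcov : ∀ θ : EuclideanSpace ℝ ι, ProbabilityTheory.evariance (fun x => ⟪θ, x⟫_ℝ) (mu ι φ) ≤
      ENNReal.ofReal (s * ‖θ‖ ^ 2)) {f : EuclideanSpace ℝ ι → ℝ} (hf : ContDiff ℝ 1 f) :
    ProbabilityTheory.evariance f (mu ι φ) ≤
      ENNReal.ofReal (64 * s) * ∫⁻ x, ENNReal.ofReal (‖fderiv ℝ f x‖ ^ 2) ∂(mu ι φ) := by
  obtain ⟨h1, h2, h3⟩ := Q237.OP.Lc1.onedlc φ h
  refine ((ht ι φ _ h1 h2 h3).2 f hf).trans (mul_le_mul_left ?_ _)
  exact ENNReal.ofReal_le_ofReal (cc_le hv ι h hs hcov)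

/-- the order polytope -/
def OPo (ι : Type) [Fintype ι] [PartialOrder ι] (a b : ℝ) : Set (EuclideanSpace ℝ ι) :=
  {x : EuclideanSpace ℝ ι | (∀ i, x i ∈ Icc a b) ∧ Monotone fun i => x i}

open Pool.Agent.W695.KH (EV VV) in
theorem poly_poin (ht : S_T) (ι : Type) [Fintype ι] [PartialOrder ι] {a b : ℝ} (hab : a < b) :
    0 < cc ((Icc a b).indicator fun _ => (1 : ℝ)) ∧
    ∀ f : EuclideanSpace ℝ ι → ℝ, ContDiff ℝ 1 f → (∀ x, |f x| ≤ 1) →
      VV (OPo ι a b) f ≤ cc ((Icc a b).indicator fun _ => (1 : ℝ)) *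
        EV (OPo ι a b) fun x => ‖fderiv ℝ f x‖ ^ 2 := by
  obtain ⟨hK, hc, hi, he, hLC⟩ := Q237.OP.Ord.ord ι a b hab
  have hpos : 0 < volume (OPo ι a b) :=
    lt_of_lt_of_le (isOpen_interior.measure_pos volume hi) (measure_mono interior_subset)
  obtain ⟨h1, h2, h3⟩ := Q237.OP.Lc1.onedlc _ hLC
  change 0 < cc _ at h2
  refine ⟨h2, fun f hf hb => ?_⟩
  obtain ⟨hp, h4⟩ := ht ι _ _ h1 h2 h3
  have h5 := h4 f hf
  rw [he] at hp h5
  change IsProbabilityMeasure ((volume (OPo ι a b))⁻¹ • volume.restrict (OPo ι a b)) at hp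
  change ProbabilityTheory.evariance f ((volume (OPo ι a b))⁻¹ • volume.restrict (OPo ι a b)) ≤
    ENNReal.ofReal (cc ((Icc a b).indicator fun _ => (1 : ℝ))) *
      ∫⁻ x, ENNReal.ofReal (‖fderiv ℝ f x‖ ^ 2) ∂((volume (OPo ι a b))⁻¹ •
        volume.restrict (OPo ι a b)) at h5
  set μ := (volume (OPo ι a b))⁻¹ • volume.restrict (OPo ι a b) with hμ
  have hint : ∀ g : EuclideanSpace ℝ ι → ℝ, ∫ x, g x ∂μ = EV (OPo ι a b) g := by
    intro g
    rw [hμ, integral_smul_measure]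
    unfold EV
    rw [ENNReal.toReal_inv, smul_eq_mul, inv_mul_eq_div]
  have hL2 : MemLp f 2 μ := by
    refine MemLp.of_bound hf.continuous.aestronglyMeasurable 1 (Eventually.of_forall fun x => ?_)
    rw [Real.norm_eq_abs]
    exact hb x
  have hae : ∀ᵐ x ∂μ, x ∈ OPo ι a b := by
    rw [hμ]
    refine Measure.ae_smul_measure ?_ _
    exact ae_restrict_mem hK.measurableSet
  obtain ⟨M, hM⟩ := hK.exists_bound_of_continuousOn (f := fun x => ‖fderiv ℝ f x‖ ^ 2)
    ((hf.continuous_fderiv (by norm_num)).norm.pow 2).continuousOn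
  have hgi : Integrable (fun x => ‖fderiv ℝ f x‖ ^ 2) μ := by
    refine Integrable.of_bound
      ((hf.continuous_fderiv (by norm_num)).norm.pow 2).aestronglyMeasurable M ?_
    filter_upwards [hae] with x hx using hM x hx
  rw [← ofReal_integral_eq_lintegral_ofReal hgi (Eventually.of_forall fun x => by positivity),
    ← ENNReal.ofReal_mul h2.le, ← hL2.ofReal_variance_eq] at h5
  have h6 := (ENNReal.ofReal_le_ofReal_iff (mul_nonneg h2.le
    (integral_nonneg fun x => by positivity))).1 h5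
  rw [ProbabilityTheory.variance_eq_sub hL2] at h6
  have e1 : ∫ x, (f ^ 2) x ∂μ = EV (OPo ι a b) fun x => f x ^ 2 := by
    rw [← hint]
    rfl
  rw [e1, hint, hint] at h6
  exact h6

/-- the Cheeger inequality of an order polytope from a bound of the variances of the linear functionals -/
theorem poly_che (ht : S_T) (hv : S_VAR) (ι : Type) [Fintype ι] [PartialOrder ι] [Nonempty ι]
    {a b : ℝ} (hab : a < b) {s : ℝ} (hs : 0 < s)
    (hcov : ∀ θ : EuclideanSpace ℝ ι, ‖θ‖ = 1 →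
      Pool.Agent.W695.KH.VV (OPo ι a b) (fun x => ⟪x, θ⟫_ℝ) ≤ s)
    {S : Set (EuclideanSpace ℝ ι)} (hS : MeasurableSet S) :
    Pool.Agent.Q188.SB.un (OPo ι a b) S * (1 - Pool.Agent.Q188.SB.un (OPo ι a b) S) ≤
      ENNReal.ofReal (56 * Real.sqrt s) *
        Pool.Agent.Q188.SB.bdr (Pool.Agent.Q188.SB.un (OPo ι a b)) S := by
  obtain ⟨hK, hc, hi, he, hLC⟩ := Q237.OP.Ord.ord ι a b hab
  have hpos : 0 < volume (OPo ι a b) :=
    lt_of_lt_of_le (isOpen_interior.measure_pos volume hi) (measure_mono interior_subset)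
  obtain ⟨h1, h2⟩ := poly_poin ht ι hab
  have h3 := Q237.OP.Che.che ι (OPo ι a b) hK hc hpos _ h1 h2
    (Pool.Agent.Q188.SB.un (OPo ι a b)) rfl S hS
  refine h3.trans (mul_le_mul_left ?_ _)
  refine ENNReal.ofReal_le_ofReal ?_
  have hμ : mu ι ((Icc a b).indicator fun _ => (1 : ℝ)) = Pool.Agent.Q188.SB.un (OPo ι a b) := he
  have hp := Pool.Agent.Q188.SB.un_prob (OPo ι a b) hK hpos
  have h4 : cc ((Icc a b).indicator fun _ => (1 : ℝ)) ≤ 64 * s := by
    refine cc_le hv ι hLC hs.le fun θ => ?_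
    rw [hμ]
    have hL2 : MemLp (fun x => ⟪θ, x⟫_ℝ) 2 (Pool.Agent.Q188.SB.un (OPo ι a b)) := by
      obtain ⟨R, hR⟩ := hK.isBounded.exists_norm_le
      refine MemLp.of_bound (by fun_prop) (‖θ‖ * R) ?_
      have hae : ∀ᵐ x ∂(Pool.Agent.Q188.SB.un (OPo ι a b)), x ∈ OPo ι a b := by
        unfold Pool.Agent.Q188.SB.un
        refine Measure.ae_smul_measure ?_ _
        exact ae_restrict_mem hK.measurableSet
      filter_upwards [hae] with x hx
      refine (norm_inner_le_norm _ _).trans ?_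
      exact mul_le_mul_of_nonneg_left (hR x hx) (norm_nonneg _)
    rw [← hL2.ofReal_variance_eq]
    refine ENNReal.ofReal_le_ofReal ?_
    by_cases h0 : θ = 0
    · subst h0
      have : (fun x : EuclideanSpace ℝ ι => ⟪(0 : EuclideanSpace ℝ ι), x⟫_ℝ) = fun _ => 0 := by
        funext x; simp
      rw [this, norm_zero]
      have e0 : ProbabilityTheory.variance (fun _ : EuclideanSpace ℝ ι => (0 : ℝ))
          (Pool.Agent.Q188.SB.un (OPo ι a b)) = 0 := ProbabilityTheory.variance_zero _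
      rw [e0]
      simp
    have hn0 : 0 < ‖θ‖ := norm_pos_iff.2 h0
    have h5 := hcov (‖θ‖⁻¹ • θ) (by rw [norm_smul, norm_inv, norm_norm, inv_mul_cancel₀ hn0.ne'])
    have h6 : ProbabilityTheory.variance (fun x => ⟪x, ‖θ‖⁻¹ • θ⟫_ℝ)
        (Pool.Agent.Q188.SB.un (OPo ι a b)) ≤ s := by
      rw [Pool.Agent.Q188.SB.var_un (OPo ι a b) hK hpos _ (by fun_prop)]
      exact h5
    have e1 : (fun x : EuclideanSpace ℝ ι => ⟪θ, x⟫_ℝ) = fun x => ‖θ‖ * ⟪x, ‖θ‖⁻¹ • θ⟫_ℝ := by
      funext x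
      rw [real_inner_smul_right, ← mul_assoc, mul_inv_cancel₀ hn0.ne', one_mul, real_inner_comm]
    rw [e1, ProbabilityTheory.variance_const_mul, mul_comm s]
    exact mul_le_mul_of_nonneg_left h6 (sq_nonneg _)
  have h5 : Real.sqrt (cc ((Icc a b).indicator fun _ => (1 : ℝ))) ≤ 8 * Real.sqrt s := by
    rw [show (8 : ℝ) = Real.sqrt 64 by
      rw [show (64 : ℝ) = 8 ^ 2 by norm_num, Real.sqrt_sq (by norm_num)],
      ← Real.sqrt_mul (by norm_num)]
    exact Real.sqrt_le_sqrt h4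
  linarith

theorem min_le_two_mul {x : ℝ≥0∞} (hx : x ≤ 1) : min x (1 - x) ≤ 2 * (x * (1 - x)) := by
  have hx' : x ≠ ⊤ := ne_top_of_le_ne_top ENNReal.one_ne_top hx
  obtain ⟨y, rfl⟩ : ∃ y : NNReal, x = y := ⟨x.toNNReal, (ENNReal.coe_toNNReal hx').symm⟩
  have hy : y ≤ 1 := by exact_mod_cast hx
  rw [← ENNReal.coe_one, ← ENNReal.coe_sub, ← ENNReal.coe_min, ← ENNReal.coe_mul,
    show (2 : ℝ≥0∞) = ((2 : NNReal) : ℝ≥0∞) from rfl, ← ENNReal.coe_mul, ENNReal.coe_le_coe,
    ← NNReal.coe_le_coe]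
  push_cast [NNReal.coe_sub hy, NNReal.coe_min]
  have h0 : (0 : ℝ) ≤ y := y.2
  have h1 : (y : ℝ) ≤ 1 := by exact_mod_cast hy
  rcases le_total (y : ℝ) (1 - y) with h | h
  · rw [min_eq_left h]; nlinarith
  · rw [min_eq_right h]; nlinarith

/-- the halfspace form of KLS for order polytopes -/
theorem poly_half (ht : S_T) (hv : S_VAR) (ι : Type) [Fintype ι] [PartialOrder ι] [Nonempty ι]
    {a b : ℝ} (hab : a < b) (t : ℝ≥0∞)
    (H : ∀ (u : EuclideanSpace ℝ ι) (r : ℝ), u ≠ 0 →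
      t * min (Pool.Agent.Q188.SB.un (OPo ι a b) {x | ⟪u, x⟫_ℝ ≤ r})
        (1 - Pool.Agent.Q188.SB.un (OPo ι a b) {x | ⟪u, x⟫_ℝ ≤ r}) ≤
        Pool.Agent.Q188.SB.bdr (Pool.Agent.Q188.SB.un (OPo ι a b)) {x | ⟪u, x⟫_ℝ ≤ r})
    {S : Set (EuclideanSpace ℝ ι)} (hS : MeasurableSet S) :
    ENNReal.ofReal (1 / 400) * t * min (Pool.Agent.Q188.SB.un (OPo ι a b) S)
        (1 - Pool.Agent.Q188.SB.un (OPo ι a b) S) ≤
      Pool.Agent.Q188.SB.bdr (Pool.Agent.Q188.SB.un (OPo ι a b)) S := by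
  obtain ⟨hK, hc, hi, he, hLC⟩ := Q237.OP.Ord.ord ι a b hab
  have hpos : 0 < volume (OPo ι a b) :=
    lt_of_lt_of_le (isOpen_interior.measure_pos volume hi) (measure_mono interior_subset)
  have hp := Pool.Agent.Q188.SB.un_prob (OPo ι a b) hK hpos
  set X := Pool.Agent.Q188.SB.un (OPo ι a b) S with hX
  set Bd := Pool.Agent.Q188.SB.bdr (Pool.Agent.Q188.SB.un (OPo ι a b)) S with hBd
  have hX1 : X ≤ 1 := prob_le_one
  have key : ∀ τ : ℝ, 0 < τ → ENNReal.ofReal τ ≤ t →
      ENNReal.ofReal (1 / 400) * ENNReal.ofReal τ * min X (1 - X) ≤ Bd := by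
    intro τ hτ hτt
    have h1 := poly_che ht hv ι hab (s := 8 / τ ^ 2) (by positivity) (fun θ hθ =>
      Pool.Agent.Q73.KL.half_VV hK hpos hτ
        (fun u r hu => (mul_le_mul' hτt le_rfl).trans (H u r hu)) hθ) hS
    have e1 : 56 * Real.sqrt (8 / τ ^ 2) ≤ 200 / τ := by
      rw [Real.sqrt_div (by norm_num), Real.sqrt_sq hτ.le, mul_div_assoc']
      apply div_le_div_of_nonneg_right _ hτ.le
      have e2 : Real.sqrt 8 ≤ 3 := by
        rw [Real.sqrt_le_left (by norm_num)]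
        norm_num
      linarith
    calc ENNReal.ofReal (1 / 400) * ENNReal.ofReal τ * min X (1 - X)
        ≤ ENNReal.ofReal (1 / 400) * ENNReal.ofReal τ * (2 * (X * (1 - X))) :=
          mul_le_mul_right (min_le_two_mul hX1) _
      _ ≤ ENNReal.ofReal (1 / 400) * ENNReal.ofReal τ * (2 * (ENNReal.ofReal (200 / τ) * Bd)) := by
          refine mul_le_mul_right (mul_le_mul_right (h1.trans ?_) _) _
          exact mul_le_mul_left (ENNReal.ofReal_le_ofReal e1) _
      _ = (ENNReal.ofReal (1 / 400) * ENNReal.ofReal τ * (2 * ENNReal.ofReal (200 / τ))) * Bd := by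
          ring
      _ = Bd := by
          rw [show (2 : ℝ≥0∞) = ENNReal.ofReal 2 by norm_num, ← ENNReal.ofReal_mul (by norm_num),
            ← ENNReal.ofReal_mul (by norm_num), ← ENNReal.ofReal_mul (by positivity)]
          have : 1 / 400 * τ * (2 * (200 / τ)) = 1 := by field_simp; norm_num
          rw [this, ENNReal.ofReal_one, one_mul]
  by_cases htt : t = ⊤
  · subst htt
    by_cases hm : min X (1 - X) = 0
    · rw [hm, mul_zero]
      exact bot_le
    have hmt : min X (1 - X) ≠ ⊤ :=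
      ne_top_of_le_ne_top ENNReal.one_ne_top ((min_le_left _ _).trans hX1)
    have hm0 : 0 < (min X (1 - X)).toReal := ENNReal.toReal_pos hm hmt
    have h2 : Bd = ⊤ := by
      refine ENNReal.eq_top_of_forall_nnreal_le fun r => ?_
      have h3 := key (400 * (r + 1) / (min X (1 - X)).toReal) (by positivity) le_top
      rw [← ENNReal.ofReal_toReal hmt, ← ENNReal.ofReal_mul (by norm_num),
        ← ENNReal.ofReal_mul (by positivity), ENNReal.toReal_ofReal hm0.le] at h3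
      refine le_trans ?_ h3
      rw [← ENNReal.ofReal_coe_nnreal]
      refine ENNReal.ofReal_le_ofReal ?_
      have : 1 / 400 * (400 * ((r : ℝ) + 1) / (min X (1 - X)).toReal) * (min X (1 - X)).toReal =
          r + 1 := by field_simp
      rw [this]
      linarith
    rw [h2]
    exact le_top
  · by_cases h0 : t = 0
    · rw [h0, mul_zero, zero_mul]
      exact bot_le
    · have h4 := key t.toReal (ENNReal.toReal_pos h0 htt) (ENNReal.ofReal_toReal htt).le
      rwa [ENNReal.ofReal_toReal htt] at h4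

end Q289.OP
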